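import Pool.Agent.Helper24.DS.Poly
import Pool.Agent.Helper24.DS.Codes

/-!
# Auxiliary lemmas for the modules GleM, GleM2, Msucc, Dyad
-/

set_option autoImplicit false

namespace Pool.Agent.Helper24.DS

open Filter Set

theorem aux_size_add (a b : ℕ) : Nat.size (a + b) ≤ Nat.size a + Nat.size b + 1 := by
  rw [Nat.size_le]
  have ha : a < 2 ^ Nat.size a := Nat.lt_size_self a
  have hb : b < 2 ^ Nat.size b := Nat.lt_size_self b
  have h1 : 2 ^ Nat.size a ≤ 2 ^ (Nat.size a + Nat.size b) :=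
    Nat.pow_le_pow_right (by norm_num) (by omega)
  have h2 : 2 ^ Nat.size b ≤ 2 ^ (Nat.size a + Nat.size b) :=
    Nat.pow_le_pow_right (by norm_num) (by omega)
  rw [pow_succ]
  omega

theorem aux_size_mono {a b : ℕ} (h : a ≤ b) : Nat.size a ≤ Nat.size b := Nat.size_le_size h

theorem aux_pow_lip {x y : ℝ} (hx : x ∈ Icc (0 : ℝ) 1) (hy : y ∈ Icc (0 : ℝ) 1) (j : ℕ) :
    |x ^ j - y ^ j| ≤ j * |x - y| := by
  induction j with
  | zero => simp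
  | succ j ih =>
    have e : x ^ (j + 1) - y ^ (j + 1) = x * (x ^ j - y ^ j) + (x - y) * y ^ j := by ring
    have h1 : |x * (x ^ j - y ^ j)| ≤ |x ^ j - y ^ j| := by
      rw [abs_mul, abs_of_nonneg hx.1]
      exact mul_le_of_le_one_left (abs_nonneg _) hx.2
    have h2 : |(x - y) * y ^ j| ≤ |x - y| := by
      rw [abs_mul, abs_of_nonneg (pow_nonneg hy.1 j)]
      exact mul_le_of_le_one_right (abs_nonneg _) (pow_le_one₀ hy.1 hy.2)
    calc |x ^ (j + 1) - y ^ (j + 1)| ≤ |x * (x ^ j - y ^ j)| + |(x - y) * y ^ j| := by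
          rw [e]; exact abs_add_le _ _
      _ ≤ j * |x - y| + |x - y| := by linarith
      _ = ((j + 1 : ℕ) : ℝ) * |x - y| := by push_cast; ring

theorem aux_ev_lip {n : ℕ} (a : Fin n → ℝ) : ∃ D : ℕ, ∀ x ∈ Icc (0 : ℝ) 1, ∀ y ∈ Icc (0 : ℝ) 1,
    |ev a x - ev a y| ≤ D * |x - y| := by
  obtain ⟨D, hD⟩ := exists_nat_ge (∑ j : Fin n, |a j| * (j : ℕ))
  refine ⟨D, fun x hx y hy => ?_⟩
  have e : ev a x - ev a y = ∑ j : Fin n, a j * (x ^ (j : ℕ) - y ^ (j : ℕ)) := by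
    rw [ev, ev, ← Finset.sum_sub_distrib]
    exact Finset.sum_congr rfl fun j _ => by ring
  rw [e]
  calc |∑ j : Fin n, a j * (x ^ (j : ℕ) - y ^ (j : ℕ))|
      ≤ ∑ j : Fin n, |a j * (x ^ (j : ℕ) - y ^ (j : ℕ))| := Finset.abs_sum_le_sum_abs _ _
    _ ≤ ∑ j : Fin n, |a j| * (j : ℕ) * |x - y| := by
        apply Finset.sum_le_sum
        intro j _
        rw [abs_mul, mul_assoc]
        exact mul_le_mul_of_nonneg_left (aux_pow_lip hx hy j) (abs_nonneg _)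
    _ = (∑ j : Fin n, |a j| * (j : ℕ)) * |x - y| := by rw [Finset.sum_mul]
    _ ≤ D * |x - y| := mul_le_mul_of_nonneg_right hD (abs_nonneg _)

theorem aux_ev_bound {n : ℕ} (a : Fin n → ℝ) : ∃ B : ℕ, ∀ x ∈ Icc (0 : ℝ) 1, |ev a x| ≤ B := by
  obtain ⟨D, hD⟩ := exists_nat_ge (∑ j : Fin n, |a j|)
  refine ⟨D, fun x hx => le_trans ?_ hD⟩
  calc |ev a x| ≤ ∑ j : Fin n, |a j * x ^ (j : ℕ)| := Finset.abs_sum_le_sum_abs _ _
    _ ≤ ∑ j : Fin n, |a j| := by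
        apply Finset.sum_le_sum
        intro j _
        rw [abs_mul, abs_of_nonneg (pow_nonneg hx.1 _)]
        exact mul_le_of_le_one_right (abs_nonneg _) (pow_le_one₀ hx.1 hx.2)

theorem aux_fl {n : ℕ} (β : Fin n → ℤ) (r i : ℕ) :
    fl r (List.ofFn β) i = ⌊∑ j, (β j : ℝ) * ((i : ℝ) / 2 ^ r) ^ (j : ℕ)⌋ := by
  rcases Nat.eq_zero_or_pos n with rfl | hn
  · simp [fl, pnum]
  · exact fl_ofFn hn β r i

/-- rounding the coefficients -/
theorem aux_round {n : ℕ} (b : Fin n → ℝ) (u : ℕ) {t : ℝ} (ht : t ∈ Icc (0 : ℝ) 1) :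
    |2 ^ u * ev b t - ∑ j, (gp u (b j) : ℝ) * t ^ (j : ℕ)| ≤ n := by
  have e : 2 ^ u * ev b t - ∑ j, (gp u (b j) : ℝ) * t ^ (j : ℕ) =
      ∑ j, (2 ^ u * b j - gp u (b j)) * t ^ (j : ℕ) := by
    rw [ev, Finset.mul_sum, ← Finset.sum_sub_distrib]
    exact Finset.sum_congr rfl fun j _ => by ring
  rw [e]
  calc |∑ j, (2 ^ u * b j - gp u (b j)) * t ^ (j : ℕ)|
      ≤ ∑ j, |(2 ^ u * b j - gp u (b j)) * t ^ (j : ℕ)| := Finset.abs_sum_le_sum_abs _ _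
    _ ≤ ∑ _j : Fin n, (1 : ℝ) := by
        apply Finset.sum_le_sum
        intro j _
        rw [abs_mul, abs_of_nonneg (pow_nonneg ht.1 _)]
        have h1 : |2 ^ u * b j - (gp u (b j) : ℝ)| ≤ 1 := by
          have h2 := Int.floor_le ((2 : ℝ) ^ u * b j)
          have h3 := Int.lt_floor_add_one ((2 : ℝ) ^ u * b j)
          unfold gp
          rw [abs_le]
          constructor <;> linarith
        calc |2 ^ u * b j - (gp u (b j) : ℝ)| * t ^ (j : ℕ) ≤ 1 * 1 :=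
              mul_le_mul h1 (pow_le_one₀ ht.1 ht.2) (pow_nonneg ht.1 _) zero_le_one
          _ = 1 := one_mul 1
    _ = n := by simp

/-- floors of close numbers -/
theorem aux_floor {x y : ℝ} {D : ℕ} (h : |x - y| ≤ D) : |⌊x⌋ - ⌊y⌋| ≤ (D : ℤ) + 1 := by
  have h1 := Int.floor_le x
  have h2 := Int.lt_floor_add_one x
  have h3 := Int.floor_le y
  have h4 := Int.lt_floor_add_one y
  rw [abs_le] at h ⊢
  constructor
  · have : (-((D : ℤ) + 1) : ℝ) < (⌊x⌋ - ⌊y⌋ : ℤ) + 1 := by push_cast; linarith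
    have h5 : (-((D : ℤ) + 1) : ℤ) < (⌊x⌋ - ⌊y⌋ : ℤ) + 1 := by exact_mod_cast this
    omega
  · have : ((⌊x⌋ - ⌊y⌋ : ℤ) : ℝ) < (D : ℤ) + 1 + 1 := by push_cast; linarith
    have h5 : (⌊x⌋ - ⌊y⌋ : ℤ) < (D : ℤ) + 1 + 1 := by exact_mod_cast this
    omega

end Pool.Agent.Helper24.DS
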